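import Pool.Agent.TFR.Dense

/-!
# Relatively discrete families of arbitrary sets: separation up to density

In ZFC: let `X` be hereditarily normal, locally compact, locally connected and first countable
(for example a hereditarily normal manifold).

(1) The number of the members of a relatively discrete family of sets which are not discrete is at
most the cellularity of `X`; in particular it is countable if `X` satisfies the countable chain
condition.

(2) Let `F i` be a relatively discrete family of subsets, of any
size, and `A i` a countable set of points of `F i` which are not isolated in `F i`. Then there are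
pairwise disjoint open sets `W i` such that every `x` in `A i` is in the closure of
`(F i ∩ W i) \ {x}`.
-/

set_option autoImplicit false

namespace Pool.Agent.Results.MP_b5a8a2_gt.DenseSeparation

open Set Topology

/-- Clause (2) of `result`. -/
theorem separation :
    ∀ (X : Type) [TopologicalSpace X] [T5Space X] [LocallyCompactSpace X]
      [LocallyConnectedSpace X] [FirstCountableTopology X]
      (ι : Type) (F A : ι → Set X),
      (∀ i, ∀ x ∈ F i, ∃ V ∈ nhds x, ∀ j, (V ∩ F j).Nonempty → j = i) →
      (∀ i, (A i).Countable) →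
      (∀ i, ∀ x ∈ A i, x ∈ F i ∧ x ∈ closure (F i \ {x})) →
      ∃ W : ι → Set X, (∀ i, IsOpen (W i)) ∧
        (∀ i, ∀ x ∈ A i, x ∈ closure ((F i ∩ W i) \ {x})) ∧
        ∀ i j, i ≠ j → Disjoint (W i) (W j) := by
  intro X _ _ _ _ _ ι F A hrel hA hAF
  exact TFR.dense_families hrel hA hAF

/-- (1) If every family of pairwise disjoint nonempty open sets has at most `κ` members, so has every
relatively discrete family of non-discrete sets (`κ = ℵ₀`: the countable chain condition).
(2) Separation up to density. -/
theorem result :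
    (∀ (X : Type) [TopologicalSpace X] [T5Space X] [LocallyCompactSpace X]
      [LocallyConnectedSpace X] [FirstCountableTopology X] (κ : Cardinal.{0}),
      (∀ S : Set (Set X), (∀ U ∈ S, IsOpen U ∧ U.Nonempty) → S.PairwiseDisjoint id →
        Cardinal.mk S ≤ κ) →
      ∀ (ι : Type) (F : ι → Set X),
        (∀ i, ∀ x ∈ F i, ∃ V ∈ nhds x, ∀ j, (V ∩ F j).Nonempty → j = i) →
        (∀ i, ∃ x ∈ F i, x ∈ closure (F i \ {x})) → Cardinal.mk ι ≤ κ) ∧
    ∀ (X : Type) [TopologicalSpace X] [T5Space X] [LocallyCompactSpace X]
      [LocallyConnectedSpace X] [FirstCountableTopology X]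
      (ι : Type) (F A : ι → Set X),
      (∀ i, ∀ x ∈ F i, ∃ V ∈ nhds x, ∀ j, (V ∩ F j).Nonempty → j = i) →
      (∀ i, (A i).Countable) →
      (∀ i, ∀ x ∈ A i, x ∈ F i ∧ x ∈ closure (F i \ {x})) →
      ∃ W : ι → Set X, (∀ i, IsOpen (W i)) ∧
        (∀ i, ∀ x ∈ A i, x ∈ closure ((F i ∩ W i) \ {x})) ∧
        ∀ i j, i ≠ j → Disjoint (W i) (W j) := by
  refine ⟨?_, separation⟩
  intro X _ _ _ _ _ κ hccc ι F hrel hnd
  choose x hxF hx using hnd
  obtain ⟨W, hWo, hWx, hWd⟩ := separation X ι F (fun i => {x i}) hrel
    (fun i => Set.countable_singleton _) (by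
      rintro i y hy
      rw [Set.mem_singleton_iff] at hy
      subst hy
      exact ⟨hxF i, hx i⟩)
  have hne : ∀ i, (W i).Nonempty := by
    intro i
    have h1 : (closure ((F i ∩ W i) \ {x i})).Nonempty := ⟨x i, hWx i (x i) rfl⟩
    obtain ⟨y, hy⟩ := closure_nonempty_iff.1 h1
    exact ⟨y, hy.1.2⟩
  have hinj : Function.Injective W := by
    intro i j hij
    by_contra hne'
    have h1 := hWd i j hne'
    rw [← hij, disjoint_self] at h1
    exact (hne i).ne_empty h1
  rw [← Cardinal.mk_range_eq W hinj]
  refine hccc _ ?_ ?_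
  · rintro U ⟨i, rfl⟩
    exact ⟨hWo i, hne i⟩
  · rintro U ⟨i, rfl⟩ V ⟨j, rfl⟩ hUV
    exact hWd i j fun h => hUV (by rw [h])

end Pool.Agent.Results.MP_b5a8a2_gt.DenseSeparation
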