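import Pool.Agent.TF.Families

/-!
# Hereditarily normal manifolds with a local flow without rest points

Let `X` be a hereditarily normal, locally compact, locally connected Hausdorff space (for example a
hereditarily normal manifold), and let `φ` be a local flow on an open subset of `X`. Then, in every
open subspace `Y` of `X`, every discrete family of relatively closed Lindelöf sets which lie in the
carrier of `φ` and contain no rest point of `φ` expands to a discrete family of open sets.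
-/

set_option autoImplicit false

namespace Pool.Agent.Results.MP_b5a8a2_gt.LocalFlows

open Set Topology TF

theorem result :
    ∀ (X : Type) [TopologicalSpace X] [T5Space X] [LocallyCompactSpace X]
      [LocallyConnectedSpace X] (φ : LocalFlow X) (Y : Set X), IsOpen Y →
      ∀ (ι : Type) (F : ι → Set X), (∀ i, IsLindelof (F i)) → (∀ i, F i ⊆ Y) →
      (∀ i, closure (F i) ∩ Y ⊆ F i) →
      (∀ x ∈ Y, ∃ V ∈ nhds x, ∀ i j, (V ∩ F i).Nonempty → (V ∩ F j).Nonempty → i = j) →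
      (∀ i, ∀ x ∈ F i, (0, x) ∈ φ.dom ∧ ∃ t, (t, x) ∈ φ.dom ∧ φ.map t x ≠ x) →
      ∃ U : ι → Set X, (∀ i, IsOpen (U i)) ∧ (∀ i, F i ⊆ U i) ∧ (∀ i, U i ⊆ Y) ∧
        ∀ x ∈ Y, ∃ V ∈ nhds x, ∀ i j, (V ∩ U i).Nonempty → (V ∩ U j).Nonempty → i = j := by
  intro X _ _ _ _ φ Y hY ι F hL hFY hFc hd hM
  have hrel : RelDisc F := by
    intro i x hx
    obtain ⟨V, hV, hij⟩ := hd x (hFY i hx)
    exact ⟨V, hV, fun j hj => hij j i hj ⟨x, mem_of_mem_nhds hV, hx⟩⟩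
  obtain ⟨U, hUo, hFU, hUd⟩ := φ.expands_lindelof hL hrel hM
  -- the union of the family is closed in `Y`
  have hcl : closure (⋃ i, F i) ∩ Y ⊆ ⋃ i, F i := by
    rintro x ⟨hx, hxY⟩
    obtain ⟨V, hV, hij⟩ := hd x hxY
    obtain ⟨y, hyV, hy⟩ := mem_closure_iff_nhds.1 hx V hV
    obtain ⟨i, hi⟩ := mem_iUnion.1 hy
    refine mem_iUnion.2 ⟨i, hFc i ⟨?_, hxY⟩⟩
    rw [mem_closure_iff_nhds]
    intro W hW
    obtain ⟨z, ⟨hzW, hzV⟩, hz⟩ := mem_closure_iff_nhds.1 hx (W ∩ V) (Filter.inter_mem hW hV)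
    obtain ⟨j, hj⟩ := mem_iUnion.1 hz
    have : i = j := hij i j ⟨y, hyV, hi⟩ ⟨z, hzV, hj⟩
    subst this
    exact ⟨z, hzW, hj⟩
  have hFW : (⋃ i, F i) ⊆ ⋃ i, U i := iUnion_mono hFU
  have hWo : IsOpen (⋃ i, U i) := isOpen_iUnion hUo
  obtain ⟨G, G', hGo, hGo', hFG, hYG, hGG⟩ : ∃ G G' : Set X, IsOpen G ∧ IsOpen G' ∧
      (⋃ i, F i) ⊆ G ∧ (Y \ ⋃ i, U i) ⊆ G' ∧ Disjoint G G' := by
    apply separated_open
    · rw [Set.disjoint_left]
      rintro x hx ⟨hxY, hxU⟩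
      exact hxU (hFW (hcl ⟨hx, hxY⟩))
    · rw [Set.disjoint_left]
      intro x hx hxc
      obtain ⟨y, hy, hy'⟩ := mem_closure_iff_nhds.1 hxc _ (hWo.mem_nhds (hFW hx))
      exact hy'.2 hy
  refine ⟨fun i => U i ∩ G ∩ Y, fun i => ((hUo i).inter hGo).inter hY,
    fun i x hx => ⟨⟨hFU i hx, hFG (mem_iUnion.2 ⟨i, hx⟩)⟩, hFY i hx⟩,
    fun i => inter_subset_right, ?_⟩
  intro x hxY
  by_cases hx : x ∈ ⋃ i, U i
  · obtain ⟨i, hi⟩ := mem_iUnion.1 hx
    refine ⟨U i, (hUo i).mem_nhds hi, ?_⟩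
    have key : ∀ j, (U i ∩ (U j ∩ G ∩ Y)).Nonempty → i = j := by
      rintro j ⟨y, hyi, ⟨hyj, -⟩, -⟩
      by_contra hne
      exact Set.disjoint_left.1 (hUd i j hne) hyi hyj
    intro j l hj hl
    rw [← key j hj, ← key l hl]
  · refine ⟨G', hGo'.mem_nhds (hYG ⟨hxY, hx⟩), ?_⟩
    rintro i j ⟨y, hy, ⟨-, hyG⟩, -⟩ -
    exact absurd hy (Set.disjoint_left.1 hGG hyG)

end Pool.Agent.Results.MP_b5a8a2_gt.LocalFlows
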