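import Pool.Agent.TFR.Man

/-!
# Hereditarily normal manifolds: collectionwise Hausdorff implies collectionwise normal for
# closed paracompact members

In ZFC: a hereditarily normal manifold is collectionwise Hausdorff if and only if every discrete
family of closed paracompact subspaces expands to a discrete family of open sets.
-/

set_option autoImplicit false

namespace Pool.Agent.Results.MP_b5a8a2_gt.ParacompactMembers

open Set Topology

theorem result :
    ∀ (X : Type) [TopologicalSpace X], T2Space X →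
      (∃ n : ℕ, ∀ x : X, ∃ U : Set X, IsOpen U ∧ x ∈ U ∧
          Nonempty (U ≃ₜ EuclideanSpace ℝ (Fin n))) →
      T5Space X →
      ((∀ (ι : Type) (p : ι → X),
          (∀ x : X, ∃ V ∈ nhds x, ∀ i j, p i ∈ V → p j ∈ V → i = j) →
          ∃ U : ι → Set X, (∀ i, IsOpen (U i) ∧ p i ∈ U i) ∧ ∀ i j, i ≠ j → Disjoint (U i) (U j)) ↔
        ∀ (ι : Type) (F : ι → Set X), (∀ i, IsClosed (F i)) → (∀ i, ParacompactSpace (F i)) →
          (∀ x : X, ∃ V ∈ nhds x, ∀ i j, (V ∩ F i).Nonempty → (V ∩ F j).Nonempty → i = j) →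
          ∃ U : ι → Set X, (∀ i, IsOpen (U i)) ∧ (∀ i, F i ⊆ U i) ∧
            ∀ x : X, ∃ V ∈ nhds x, ∀ i j, (V ∩ U i).Nonempty → (V ∩ U j).Nonempty → i = j) := by
  intro X _ _ hM _
  obtain ⟨h1, h2, h3, h4⟩ := TFR.manifold_props hM
  constructor
  · intro hH ι F hF hP hd
    have hH' : TFR.CWH.{0, 0} X := hH
    exact TF.discrete_expansion hF hd (TFR.paracompact_expands.{0, 0} h4 hH' hF hP hd)
  · intro h ι p hp
    obtain ⟨U, hUo, hFU, hUd⟩ := h ι (fun i => {p i}) (fun i => isClosed_singleton)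
      (fun i => inferInstance) (by
        intro x
        obtain ⟨V, hV, hij⟩ := hp x
        refine ⟨V, hV, ?_⟩
        rintro i j ⟨_, hy, rfl⟩ ⟨_, hz, rfl⟩
        exact hij i j hy hz)
    refine ⟨U, fun i => ⟨hUo i, hFU i rfl⟩, fun i j hne => ?_⟩
    rw [Set.disjoint_left]
    intro x hxi hxj
    obtain ⟨V, hV, hij⟩ := hUd x
    exact hne (hij i j ⟨x, mem_of_mem_nhds hV, hxi⟩ ⟨x, mem_of_mem_nhds hV, hxj⟩)

end Pool.Agent.Results.MP_b5a8a2_gt.ParacompactMembers
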