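import Pool.Agent.TFR.Para

/-!
# Relatively discrete families of paracompact subspaces: separation modulo discrete sets

In ZFC: let `X` be hereditarily normal, locally compact, locally connected and first countable,
and let every point of `X` have a neighbourhood with the countable chain condition (for example,
let `X` be a hereditarily normal manifold). For every relatively discrete family of locally compact
paracompact subspaces `F i`, of any size, there are pairwise disjoint open sets `U i` such that
no point of `F i` is an accumulation point of `F i \ U i`.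
-/

set_option autoImplicit false

namespace Pool.Agent.Results.MP_b5a8a2_gt.SeparationModDiscrete

open Set Topology

theorem result :
    ∀ (X : Type) [TopologicalSpace X] [T5Space X] [LocallyCompactSpace X]
      [LocallyConnectedSpace X] [FirstCountableTopology X],
      (∀ x : X, ∃ V ∈ nhds x, ∀ S : Set (Set X), (∀ W ∈ S, IsOpen W ∧ W.Nonempty ∧ W ⊆ V) →
        S.PairwiseDisjoint id → S.Countable) →
      ∀ (ι : Type) (F : ι → Set X), (∀ i, LocallyCompactSpace (F i)) →
        (∀ i, ParacompactSpace (F i)) →
        (∀ i, ∀ x ∈ F i, ∃ V ∈ nhds x, ∀ j, (V ∩ F j).Nonempty → j = i) →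
        ∃ U : ι → Set X, (∀ i, IsOpen (U i)) ∧
          (∀ i, ∀ x ∈ F i, ∃ V ∈ nhds x, (V ∩ (F i \ U i)).Finite) ∧
          ∀ i j, i ≠ j → Disjoint (U i) (U j) := by
  intro X _ _ _ _ _ hX ι F hL hP hrel
  exact TFR.mod_discrete hX hrel hL hP

end Pool.Agent.Results.MP_b5a8a2_gt.SeparationModDiscrete
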